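import Pool.Agent.Y228.ND4.T3
import Pool.Agent.Y231.N4.F3

/-!
# Nondegenerate polynomials in four variables, at the origin
-/

set_option autoImplicit false

namespace Pool.Agent.Y228.ND4

open MvPolynomial Pool.Agent.H628R4.TP Pool.Agent.W425.MM
open Pool.Agent.W425.ND (spa Nondeg prodb prodb_eval parts)
open Pool.Agent.W426.SM (gord IsRay face)
open Pool.Agent.W425.BF (B1)
open Pool.Agent.W425.SV (RelV Kil1)
open Pool.Agent.W425.SG (UnitEq)
open Pool.Agent.TH216.HD hiding IsRay
open Pool.Agent.TH216.HDNL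
open Pool.Agent.TH216.ND
open Pool.Agent.TH216.MF (RelG KilU KRelJ RecJ krelJ_phi SimR)
open Pool.Agent.TH216.MC (pos_of_ray)
open Pool.Agent.TH216.LX (InN aJ_phiN Vert)
open Pool.Agent.W428.MOT (Pt Constr ratRing sp Lu MK)
open Pool.Agent.W375.MG (zetaG Good)
open Pool.Agent.Y231.N4

variable {r : ℕ}

/-- The vertices. -/
theorem exists_vert {N : ℕ} (v : Fin r → Fin N → ℕ) (hv : Function.Injective v) :
    ∃ V : Finset (Fin r), Spans v V ∧ Vert (vV v V) := by
  classical
  -- a smallest set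
  have hex : ∃ n : ℕ, ∃ V : Finset (Fin r), Spans v V ∧ V.card = n := by
    refine ⟨_, Finset.univ, fun j => ⟨fun k => if k = j then 1 else 0, fun k => ?_,
      fun k hk => absurd (Finset.mem_univ k) hk, by simp, fun i => by simp⟩, rfl⟩
    dsimp only
    split_ifs <;> norm_num
  obtain ⟨V, hV, hcard⟩ := Nat.find_spec hex
  refine ⟨V, hV, fun x => ?_⟩
  rintro ⟨l, h1, h2, h3, h4⟩
  have hmin := Nat.find_min hex (m := (V.erase (iV V x)).card) (by
    rw [← hcard, Finset.card_erase_of_mem (iV_mem V x)]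
    have : 0 < V.card := Finset.card_pos.2 ⟨_, iV_mem V x⟩
    omega)
  apply hmin
  refine ⟨_, fun j => ?_, rfl⟩
  obtain ⟨L, g1, g2, g3, g4⟩ := hV j
  -- the new coefficients
  set M : Fin r → ℝ := fun k => (if k = iV V x then 0 else L k) +
    L (iV V x) * ∑ y, (if iV V y = k then l y else 0) with hM
  have hsum : ∀ f : Fin r → ℝ, ∑ k, M k * f k = (∑ k, L k * f k - L (iV V x) * f (iV V x)) +
      L (iV V x) * ∑ y, l y * f (iV V y) := by
    intro f
    have e1 : ∑ k, (if k = iV V x then 0 else L k) * f k =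
        ∑ k, L k * f k - L (iV V x) * f (iV V x) := by
      rw [← Finset.add_sum_erase Finset.univ
          (fun k => (if k = iV V x then 0 else L k) * f k) (Finset.mem_univ (iV V x)),
        ← Finset.add_sum_erase Finset.univ (fun k => L k * f k) (Finset.mem_univ (iV V x)),
        if_pos rfl, zero_mul, zero_add, add_sub_cancel_left]
      exact Finset.sum_congr rfl fun k hk => by rw [if_neg (Finset.ne_of_mem_erase hk)]
    have e2 : ∑ k, (∑ y, (if iV V y = k then l y else 0)) * f k =
        ∑ y, l y * f (iV V y) := by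
      simp only [Finset.sum_mul]
      rw [Finset.sum_comm]
      refine Finset.sum_congr rfl fun y _ => ?_
      rw [Finset.sum_eq_single (iV V y)]
      · rw [if_pos rfl]
      · intro b _ hb
        rw [if_neg hb.symm, zero_mul]
      · intro h
        exact absurd (Finset.mem_univ _) h
    rw [← e1, ← e2, Finset.mul_sum, ← Finset.sum_add_distrib]
    refine Finset.sum_congr rfl fun k _ => ?_
    rw [hM]
    ring
  refine ⟨M, fun k => ?_, fun k hk => ?_, ?_, fun i => ?_⟩
  · rw [hM]
    refine add_nonneg ?_ (mul_nonneg (g1 _) (Finset.sum_nonneg fun y _ => ?_))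
    · split_ifs
      · exact le_rfl
      · exact g1 k
    · split_ifs
      · exact h1 y
      · exact le_rfl
  · rw [Finset.mem_erase, not_and_or, not_not] at hk
    rw [hM]
    have e1 : (if k = iV V x then 0 else L k) = 0 := by
      rcases hk with hk | hk
      · rw [if_pos hk]
      · rw [g2 k hk, ite_self]
    have e2 : ∑ y, (if iV V y = k then l y else 0) = 0 := by
      refine Finset.sum_eq_zero fun y _ => ?_
      by_cases hy : iV V y = k
      · rw [if_pos hy]
        rcases hk with hk | hk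
        · rw [← hy] at hk
          rw [iV_inj V hk]
          exact h2
        · exact absurd (hy ▸ iV_mem V y) hk
      · rw [if_neg hy]
    dsimp only
    rw [e1, e2, mul_zero, add_zero]
  · have h5 := hsum fun _ => 1
    simp only [mul_one] at h5
    rw [h5, g3, h3]
    ring
  · rw [hsum fun k => (v k i : ℝ)]
    have h5 : ∑ y, l y * (v (iV V y) i : ℝ) ≤ (v (iV V x) i : ℝ) := h4 i
    have h6 := mul_le_mul_of_nonneg_left h5 (g1 (iV V x))
    have h7 := g4 i
    linarith

/-- the recurrences at the bad levels -/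
theorem hb_nd4 (hr : 0 < r) (v : Fin r → Fin 4 → ℕ) (hv : Function.Injective v)
    (V : Finset (Fin r)) (hV : Spans v V) (P : ℚ → Prop)
    (hP : ∀ α, ¬ P α → ∃ (θ : Fin V.card → ℤ) (p : Polynomial ℂ),
      RelG (vV v V) (Kil1 (vV v V)) (KilU (vV v V) θ) p ∧ p.eval (α : ℂ) ≠ 0)
    (q : ℕ) (hq : 2 ≤ q) (e : Finset (Fin r) → ℂ)
    (he : KRelJ q v Finset.univ e) (he' : KRelB q v e) (T0 : ℂ) (hT0 : T0 ≠ 0) (σ : ℚ)
    (hσ : HypS4 (vV v V) (σ : ℝ) ∧ ¬ P (-σ))
    (hlog : Real.log ‖T0‖ / Real.log q = (σ : ℝ)) : RecJ q v e Finset.univ T0 := by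
  classical
  have hcard := (gord_vV hr v V hV 0).1
  obtain ⟨hL, hPσ⟩ := hσ
  obtain ⟨θ, p, hrel, hp⟩ := hP _ hPσ
  have hma : ∀ j', ∃ j, v j = vV v V j' := fun j' => ⟨iV V j', rfl⟩
  have hmb : ∀ j, InN (vV v V) Finset.univ (v j) := fun j =>
    inN_vV v V Finset.univ Finset.univ (spansD_univ hV) (Finset.Subset.refl _) j
  have he1 := krelJ_phi v (vV v V) hv hma q Finset.univ e he
  have he2 := krelB_phi v (vV v V) hr hcard hma hmb q e he'
  have h1 : ((-Real.log ‖T0‖ / Real.log q : ℝ) : ℂ) = ((-σ : ℚ) : ℂ) := by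
    rw [neg_div, hlog]
    push_cast
    rfl
  obtain ⟨Q, hQ, hrec⟩ := recJ4 q hq (vV v V) p θ hrel _ he1 he2 T0 hT0
    (by rw [h1]; exact hp) (by rw [hlog]; exact hL)
  refine ⟨Q, hQ, ?_⟩
  filter_upwards [hrec] with t ht
  rw [← ht]
  refine Finset.sum_congr rfl fun m _ => ?_
  rw [aJ_phiN v (vV v V) Finset.univ hr hcard hma hmb]

/-- **Nondegenerate polynomials in four variables, at the origin.** -/
theorem nd4 {k : Type} [Field k] [Algebra k ℂ] (hr : 0 < r)
    (v : Fin r → Fin 4 → ℕ) (hv : Function.Injective v) (c : Fin r → k) (hc : ∀ j, c j ≠ 0)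
    (hnd : Nondegenerate v (fun j => algebraMap k ℂ (c j))) :
    ∃ S : Finset (ℤ × ℤ),
      (∀ p ∈ S, p.1 < 0 ∧ 0 < p.2 ∧ ∀ b : Polynomial ℂ, b.eval (-1) = 0 →
        UnitEq True (spa v (fun j => algebraMap k ℂ (c j))) b →
          ∃ i : ℤ, b.eval ((p.1 : ℂ) / p.2 - i) = 0) ∧
      (∀ (K : Type) [Field K] [Algebra k K] (W : Set (Pt K (Fin 4)))
        (E : Set (AlgebraicClosure K)), Constr W → Good E → (∀ z ∈ W, ∀ i, z i = 0) →
        zetaG (spa v (fun j => algebraMap k K (c j))) W E ∈ ratRing K S) := by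
  classical
  have hne : NeZero r := ⟨by omega⟩
  have hkc : CharZero k := RingHom.charZero (algebraMap k ℂ)
  have hnd' : Nondeg v (fun j => algebraMap k ℂ (c j)) := hnd
  obtain ⟨V, hV, hVert⟩ := exists_vert v hv
  have hcard := (gord_vV hr v V hV 0).1
  have hgord : ∀ a, gord (vV v V) a = gord v a := fun a => (gord_vV hr v V hV a).2
  set P : ℚ → Prop := PW True (spa v (fun j => algebraMap k ℂ (c j))) with hPdef
  have hP : ∀ α, ¬ P α → ∃ (θ : Fin V.card → ℤ) (p : Polynomial ℂ),
      RelG (vV v V) (Kil1 (vV v V)) (KilU (vV v V) θ) p ∧ p.eval (α : ℂ) ≠ 0 := by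
    intro α hα
    rw [hPdef] at hα
    unfold PW at hα
    push Not at hα
    obtain ⟨b, hb1, hb, hroot⟩ := hα
    obtain ⟨K, hK⟩ := relAll parts True v _ hv hnd' b hb
    obtain ⟨θ, hθ⟩ := rel_vV v V hV True (prodb b K) hK
    refine ⟨θ, prodb b K, hθ, ?_⟩
    rw [prodb_eval, Finset.prod_ne_zero_iff]
    intro i _
    exact_mod_cast hroot (i : ℤ)
  -- a root of all the relations
  have hroot : ∀ σ : ℚ, (∀ p : Polynomial ℂ,
      (∀ θ : Fin r → ℝ, LinearIndependent ℚ θ → RelV v θ True p) →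
        p.eval (-(σ : ℂ)) = 0) → P (-σ) := by
    intro σ h b hb1 hb
    obtain ⟨K, hK⟩ := relAll parts True v _ hv hnd' b hb
    have h1 := h (prodb b K) hK
    rw [prodb_eval, Finset.prod_eq_zero_iff] at h1
    obtain ⟨i, -, hi⟩ := h1
    refine ⟨(i : ℤ), ?_⟩
    push_cast
    exact hi
  obtain ⟨S, hS, hz1⟩ := fin4 v hv hr (fun σ => HypS4 (vV v V) (σ : ℝ) ∧ ¬ P (-σ))
    (fun q hq e he he' T0 hT0 σ hσ hlog => hb_nd4 hr v hv V hV P hP q hq e he he' T0 hT0 σ hσ
      hlog)
  have hspa : ∀ {K : Type} [Field K] (c' : Fin r → K), spa v c' = sp 0 v c' 1 := by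
    intro K _ c'
    unfold sp spa
    simp
  refine ⟨insert (-1, 1) S, fun p hp => ?_, fun K _ _ W E hW hE hWD => ?_⟩
  · rcases Finset.mem_insert.1 hp with rfl | hp
    · refine ⟨by norm_num, by norm_num, fun b hb _ => ⟨0, ?_⟩⟩
      have h1 : (((-1 : ℤ) : ℂ) / ((1 : ℤ) : ℂ) - ((0 : ℤ) : ℂ)) = -1 := by
        push_cast
        ring
      rw [h1, hb]
    obtain ⟨a, ha, hg, hn, rfl⟩ := hS p hp
    refine ⟨pos_of_ray ha, Int.natCast_pos.2 hg, fun b hb hU => ?_⟩
    have hgC : ((gord v a : ℕ) : ℂ) ≠ 0 := by exact_mod_cast hg.ne'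
    have hgq : ((gord v a : ℕ) : ℚ) ≠ 0 := by exact_mod_cast hg.ne'
    set σ : ℚ := ((∑ i, a i : ℕ) : ℚ) / gord v a with hσ
    have hPσ : P (-σ) := by
      by_cases hint : ∃ t : ℤ, σ = t
      · obtain ⟨t, ht⟩ := hint
        intro b hb1 _
        refine ⟨1 - t, ?_⟩
        rw [ht]
        have e : (((-(t : ℚ) : ℚ) : ℂ) - ((1 - t : ℤ) : ℂ)) = -1 := by
          push_cast
          ring
        rw [e, hb1]
      · by_contra hcon
        apply hn
        refine ⟨AZ.main (vV v V) hcard hVert (σ : ℝ) ?_ ?_ ?_, hcon⟩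
        · intro h
          exact hint ⟨1, by exact_mod_cast h⟩
        · intro h
          exact hint ⟨2, by exact_mod_cast h⟩
        intro a' ha' hg' hl
        have hgq' : ((gord (vV v V) a' : ℕ) : ℚ) ≠ 0 := by exact_mod_cast hg'.ne'
        have hl' : ((∑ i, a' i : ℕ) : ℚ) / gord (vV v V) a' = σ := by
          apply Rat.cast_injective (α := ℝ)
          push_cast
          push_cast at hl
          exact hl
        have h3 : ∑ i, a' i ≠ gord (vV v V) a' := by
          intro h3
          apply hint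
          refine ⟨1, ?_⟩
          rw [← hl', h3, div_self hgq']
          norm_num
        have h4 : ∑ i, a' i ≠ 2 * gord (vV v V) a' := by
          intro h4
          apply hint
          refine ⟨2, ?_⟩
          rw [← hl', h4]
          push_cast
          rw [mul_div_assoc, div_self hgq', mul_one]
        have hg'' : 0 < gord v a' := by rw [← hgord]; exact hg'
        have hσ' : (-(σ : ℂ)) = -(((∑ i, a' i : ℕ) : ℂ) / gord v a') := by
          rw [← hl', hgord]
          push_cast
          rfl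
        rcases fac (vV v V) hcard hVert a' ha' hg' h3 h4 with h5 | h5 | h5 | h5
        · exfalso
          apply hcon
          refine hroot σ fun p hp => ?_
          rw [hσ']
          exact a5 v True p hp a' hg'' (nonB_iV hr v V hV a' h5)
        · exfalso
          apply hcon
          refine hroot σ fun p hp => ?_
          obtain ⟨θ, hθ, hR⟩ := stR1 v a' hg'' (circ_iV hr v V hV a' h5)
          rw [hσ']
          exact hR p (hp θ hθ)
        · exfalso
          apply hcon
          refine hroot σ fun p hp => ?_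
          obtain ⟨θ, hθ, hR⟩ := stR2 v a' hg'' (pnt_iV hr v V hV a' h5)
          rw [hσ']
          exact hR p (hp θ hθ)
        · exact h5
    obtain ⟨i, hi⟩ := hPσ b hb hU
    refine ⟨i, ?_⟩
    have e : ((-((∑ i, a i : ℕ) : ℤ) : ℤ) : ℂ) / ((gord v a : ℤ) : ℂ) =
        ((-σ : ℚ) : ℂ) := by
      rw [hσ]
      push_cast
      ring
    rw [e]
    exact hi
  · have hK : CharZero K := charZero_of_injective_algebraMap (algebraMap k K).injective
    rw [hspa]
    exact Pool.Agent.TH216.LX.mem_insert_ring S _ (hz1 K _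
      (nonG_of Pool.Agent.W67.MM.taskB1 k K v c hr hnd')
      (fun j => (map_ne_zero _).2 (hc j)) W E hW hE fun z hz i => hWD z hz i)

end Pool.Agent.Y228.ND4
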