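import Pool.Agent.W375.MG.Out
import Pool.Agent.W417.MT.Free
import Pool.Agent.W417.MT.K0

/-!
# Homogeneous polynomials: the local motivic zeta function at the origin and the global one
-/

set_option autoImplicit false

namespace Pool.Agent.Y228.ND4

open MvPolynomial Pool.Agent.W428.MOT
open Pool.Agent.W375.MT (coeff_arc coeff_aeval_congr chi_empty)
open Pool.Agent.W375.MG (zetaG Good JetG constr_JetG)
open Pool.Agent.W63.MTFin (mapMeas)

variable {K : Type} [Field K] {n : ℕ}

/-- homogeneous polynomials and scaling -/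
theorem aeval_scale {A : Type} [CommRing A] [Algebra K A] {f : MvPolynomial (Fin n) K} {d : ℕ}
    (hf : f.IsHomogeneous d) (x : A) (g : Fin n → A) :
    aeval (fun i => x * g i) f = x ^ d * aeval g f := by
  rw [aeval_def, aeval_def, eval₂_eq', eval₂_eq', Finset.mul_sum]
  refine Finset.sum_congr rfl fun m hm => ?_
  have h1 : ∑ i, m i = d := by
    have h2 := hf (mem_support_iff.1 hm)
    rw [← h2, Finsupp.weight_apply, Finsupp.sum_fintype _ _ (by simp)]
    simp
  have h3 : ∏ i, (x * g i) ^ m i = x ^ d * ∏ i, g i ^ m i := by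
    simp only [mul_pow]
    rw [Finset.prod_mul_distrib, Finset.prod_pow_eq_pow_sum, h1]
  rw [h3]
  ring

/-- the arc divided by `t` -/
noncomputable def sh {N : ℕ} (z : Pt K (Fin n × Fin (N + 1))) (i : Fin n) :
    PowerSeries (AlgebraicClosure K) :=
  PowerSeries.mk fun j => PowerSeries.coeff (j + 1) (arc z i)

theorem arc_eq_sh {N : ℕ} (z : Pt K (Fin n × Fin (N + 1))) (hz : ∀ i, z (i, 0) = 0) :
    arc z = fun i => PowerSeries.X * sh z i := by
  funext i
  ext j
  cases j with
  | zero =>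
    rw [PowerSeries.coeff_zero_X_mul, coeff_arc _ _ _ (by omega)]
    exact hz i
  | succ j =>
    rw [PowerSeries.coeff_succ_X_mul, sh, PowerSeries.coeff_mk]

/-- the coefficients -/
theorem coeff_hom {N d : ℕ} {f : MvPolynomial (Fin n) K} (hf : f.IsHomogeneous d)
    (z : Pt K (Fin n × Fin (N + 1))) (hz : ∀ i, z (i, 0) = 0) (j : ℕ) :
    PowerSeries.coeff (j + d) (aeval (arc z) f) = PowerSeries.coeff j (aeval (sh z) f) := by
  rw [arc_eq_sh z hz, aeval_scale hf, mul_comm, PowerSeries.coeff_mul_X_pow]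

theorem coeff_hom_lt {N d : ℕ} {f : MvPolynomial (Fin n) K} (hf : f.IsHomogeneous d)
    (z : Pt K (Fin n × Fin (N + 1))) (hz : ∀ i, z (i, 0) = 0) (j : ℕ) (hj : j < d) :
    PowerSeries.coeff j (aeval (arc z) f) = 0 := by
  rw [arc_eq_sh z hz, aeval_scale hf, mul_comm, PowerSeries.coeff_mul_X_pow', if_neg (by omega)]

/-- the coordinates which play no role -/
def FH (n N d : ℕ) : Finset (Fin n × Fin (N + d + 1)) :=
  Finset.univ.filter fun p => N + 1 < (p.2 : ℕ)

theorem card_FH (n N d : ℕ) (hd : 0 < d) : (FH n N d).card = n * (d - 1) := by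
  have e : FH n N d = Finset.univ ×ˢ (Finset.univ.filter fun j : Fin (N + d + 1) =>
      N + 1 < (j : ℕ)) := by
    ext ⟨i, j⟩
    simp [FH]
  rw [e, Finset.card_product, Finset.card_univ, Fintype.card_fin]
  congr 1
  have h1 : (Finset.univ.filter fun j : Fin (N + d + 1) => N + 1 < (j : ℕ)).card =
      ((Finset.range (N + d + 1)).filter fun j => N + 1 < j).card := by
    rw [← Finset.card_map Fin.valEmbedding]
    congr 1
    ext j
    simp only [Finset.mem_map, Finset.mem_filter, Finset.mem_univ, true_and, Finset.mem_range,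
      Fin.valEmbedding_apply]
    constructor
    · rintro ⟨x, hx, rfl⟩
      exact ⟨x.2, hx⟩
    · rintro ⟨h1, h2⟩
      exact ⟨⟨j, h1⟩, h2, rfl⟩
  rw [h1]
  have h2 : ((Finset.range (N + d + 1)).filter fun j => N + 1 < j) =
      Finset.Ico (N + 2) (N + d + 1) := by
    ext j
    simp only [Finset.mem_filter, Finset.mem_range, Finset.mem_Ico]
    omega
  rw [h2, Nat.card_Ico]
  omega

/-- The jets with origin `0`. -/
theorem jet_hom {R : Type} [CommRing R] (M : Meas K R) {d : ℕ} (hd : 0 < d)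
    {f : MvPolynomial (Fin n) K} (hf : f.IsHomogeneous d) {E : Set (AlgebraicClosure K)}
    (hE : Good E) (h0 : Constr ({0} : Set (Pt K (Fin n)))) (N : ℕ) :
    M.χ _ (JetG f {0} E (N + d)) = M.χ _ (JetG f Set.univ E N) * M.L ^ (n * (d - 1)) := by
  classical
  have hmem : ∀ z : Pt K (Fin n × Fin (N + d + 1)), z ∈ JetG f {0} E (N + d) ↔
      (∀ i, z (i, 0) = 0) ∧ (∀ j < N, PowerSeries.coeff j (aeval (sh z) f) = 0) ∧
        PowerSeries.coeff N (aeval (sh z) f) ∈ E := by
    intro z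
    constructor
    · rintro ⟨h1, h2, h3⟩
      have hz : ∀ i, z (i, 0) = 0 := fun i => congrFun (Set.mem_singleton_iff.1 h1) i
      refine ⟨hz, fun j hj => ?_, ?_⟩
      · rw [← coeff_hom hf z hz]
        exact h2 _ (by omega)
      · rw [← coeff_hom hf z hz]
        exact h3
    · rintro ⟨hz, h2, h3⟩
      refine ⟨Set.mem_singleton_iff.2 (funext hz), fun j hj => ?_, ?_⟩
      · by_cases hjd : j < d
        · exact coeff_hom_lt hf z hz j hjd
        · have := h2 (j - d) (by omega)
          rw [← coeff_hom hf z hz, Nat.sub_add_cancel (by omega)] at this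
          exact this
      · rw [← coeff_hom hf z hz] at h3
        exact h3
  have hfree : ∀ z w : Pt K (Fin n × Fin (N + d + 1)), (∀ p, p ∉ FH n N d → w p = z p) →
      z ∈ JetG f {0} E (N + d) → w ∈ JetG f {0} E (N + d) := by
    intro z w h hz
    rw [hmem] at hz ⊢
    obtain ⟨h1, h2, h3⟩ := hz
    have h4 : ∀ j ≤ N, PowerSeries.coeff j (aeval (sh w) f) =
        PowerSeries.coeff j (aeval (sh z) f) := by
      refine coeff_aeval_congr f N (sh w) (sh z) ?_
      intro i k hk
      rw [sh, sh, PowerSeries.coeff_mk, PowerSeries.coeff_mk, coeff_arc _ _ _ (by omega),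
        coeff_arc _ _ _ (by omega)]
      exact h _ (by simp only [FH, Finset.mem_filter, Finset.mem_univ, true_and]; omega)
    refine ⟨fun i => ?_, fun j hj => ?_, ?_⟩
    · rw [h (i, 0) (by simp [FH])]
      exact h1 i
    · rw [h4 j hj.le]
      exact h2 j hj
    · rw [h4 N le_rfl]
      exact h3
  have e1 := Pool.Agent.W417.MT.Free.main M (JetG f {0} E (N + d)) ∅ (FH n N d) (fun _ => 0)
    (Finset.disjoint_empty_left _) (constr_JetG f h0 hE _)
    (fun z w h hz => hfree z w (fun p hp => h p (by simp) hp) hz)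
  simp only [Finset.notMem_empty, false_implies, implies_true, Set.ofPred_true, Set.inter_univ,
    Finset.empty_union, map_zero, Finset.card_empty, pow_zero, mul_one] at e1
  rw [e1, card_FH _ _ _ hd]
  congr 1
  set g1 : Pt K (Fin n × Fin (N + d + 1)) → Pt K (Fin n × Fin (N + 1)) := fun z p =>
    z (p.1, ⟨p.2 + 1, by have := p.2.2; omega⟩) with hg1
  set g2 : Pt K (Fin n × Fin (N + 1)) → Pt K (Fin n × Fin (N + d + 1)) := fun y p =>
    if h : 0 < (p.2 : ℕ) ∧ (p.2 : ℕ) ≤ N + 1 then y (p.1, ⟨p.2 - 1, by omega⟩) else 0 with hg2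
  refine M.iso _ _ ((constr_JetG f h0 hE _).inter (Constr.ballFinset _ fun p _ =>
    Constr.eqz (IsPF.coord _))) (constr_JetG f Constr.univ hE N) g1 g2
    (regularOn_poly (fun p => IsPF.coord _) _) (regularOn_poly (fun p => ?_) _) ?_ ?_ ?_ ?_
  · rw [hg2]
    by_cases h : 0 < (p.2 : ℕ) ∧ (p.2 : ℕ) ≤ N + 1
    · simp only [dif_pos h]
      exact IsPF.coord _
    · simp only [dif_neg h]
      exact IsPF.zero
  · rintro z ⟨hz, h3⟩
    rw [hmem] at hz
    obtain ⟨h1, h2, h2'⟩ := hz
    have h4 : ∀ j ≤ N, PowerSeries.coeff j (aeval (arc (g1 z)) f) =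
        PowerSeries.coeff j (aeval (sh z) f) := by
      refine coeff_aeval_congr f N (arc (g1 z)) (sh z) ?_
      intro i k hk
      rw [sh, PowerSeries.coeff_mk, coeff_arc _ _ _ (by omega), coeff_arc _ _ _ (by omega)]
    refine ⟨Set.mem_univ _, fun j hj => ?_, ?_⟩
    · rw [h4 j hj.le]
      exact h2 j hj
    · rw [h4 N le_rfl]
      exact h2'
  · rintro y ⟨-, h2, h2'⟩
    have hz0 : ∀ i, g2 y (i, 0) = 0 := by
      intro i
      rw [hg2]
      exact dif_neg (by simp)
    have h4 : ∀ j ≤ N, PowerSeries.coeff j (aeval (sh (g2 y)) f) =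
        PowerSeries.coeff j (aeval (arc y) f) := by
      refine coeff_aeval_congr f N (sh (g2 y)) (arc y) ?_
      intro i k hk
      rw [sh, PowerSeries.coeff_mk, coeff_arc _ _ _ (by omega), coeff_arc _ _ _ (by omega)]
      rw [hg2]
      exact dif_pos ⟨by simp, by simpa using hk⟩
    refine ⟨(hmem _).2 ⟨hz0, fun j hj => ?_, ?_⟩, ?_⟩
    · rw [h4 j hj.le]
      exact h2 j hj
    · rw [h4 N le_rfl]
      exact h2'
    · intro p hp
      simp only [FH, Finset.mem_filter, Finset.mem_univ, true_and] at hp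
      rw [hg2]
      exact dif_neg (by omega)
  · rintro z ⟨hz, h3⟩
    rw [hmem] at hz
    funext p
    rw [hg2, hg1]
    by_cases h : 0 < (p.2 : ℕ) ∧ (p.2 : ℕ) ≤ N + 1
    · simp only [dif_pos h]
      congr 2
      exact Fin.ext (by simp; omega)
    · simp only [dif_neg h]
      by_cases h0 : (p.2 : ℕ) = 0
      · have e : p = (p.1, 0) := Prod.ext rfl (Fin.ext h0)
        rw [e]
        exact (hz.1 _).symm
      · exact (h3 p (by simp only [FH, Finset.mem_filter, Finset.mem_univ, true_and]; omega)).symm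
  · rintro y -
    funext p
    rw [hg2, hg1]
    have hp := p.2.2
    simp only
    rw [dif_pos ⟨by omega, by omega⟩]
    congr 1

/-- The zeta function of the jets with origin `0`. -/
theorem zeta_hom [CharZero K] {d : ℕ} (hd : 0 < d)
    {f : MvPolynomial (Fin n) K} (hf : f.IsHomogeneous d) {E : Set (AlgebraicClosure K)}
    (hE : Good E) (h0 : Constr ({0} : Set (Pt K (Fin n)))) :
    zetaG f {0} E = PowerSeries.X ^ d *
      (PowerSeries.C (((Lu K) ^ (-(n : ℤ)) : (MK K)ˣ) : MK K) * zetaG f Set.univ E) := by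
  obtain ⟨M₀, hM⟩ := Pool.Agent.W417.MT.K0.main K
  have hL : M₀.L = LK K := hM _ _
  ext m
  by_cases hm : m < d
  · rw [PowerSeries.coeff_X_pow_mul', if_neg (by omega), zetaG, PowerSeries.coeff_mk]
    have h1 : JetG f {0} E m = ∅ := by
      rw [Set.eq_empty_iff_forall_notMem]
      rintro z ⟨h1, -, h3⟩
      have hz : ∀ i, z (i, 0) = 0 := fun i => congrFun (Set.mem_singleton_iff.1 h1) i
      rw [coeff_hom_lt hf z hz m hm] at h3
      exact hE.zero h3
    rw [h1, ← hM, chi_empty, map_zero, zero_mul]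
  · obtain ⟨N, rfl⟩ : ∃ N, m = N + d := ⟨m - d, by omega⟩
    rw [PowerSeries.coeff_X_pow_mul, PowerSeries.coeff_C_mul, zetaG, PowerSeries.coeff_mk, zetaG,
      PowerSeries.coeff_mk, ← hM, ← hM, jet_hom M₀ hd hf hE h0, hL, map_mul, map_pow]
    have h2 : algebraMap (K0 K) (MK K) (LK K) = ((Lu K : (MK K)ˣ) : MK K) := rfl
    rw [h2, ← Units.val_pow_eq_pow_val, mul_assoc, ← Units.val_mul, mul_left_comm,
      ← Units.val_mul, ← zpow_natCast, ← zpow_add, ← zpow_add]
    congr 3
    push_cast [Nat.cast_sub hd]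
    ring

/-- The elements of the ring of the rays are quotients of polynomials. -/
theorem rat_repr (S : Set (ℤ × ℤ)) (hS : ∀ p ∈ S, 0 < p.2) {g : PowerSeries (MK K)}
    (hg : g ∈ ratRing K S) :
    ∃ (q P : Polynomial (MK K)) (q' : PowerSeries (MK K)), q' ∈ ratRing K S ∧
      (q : PowerSeries (MK K)) * q' = 1 ∧ g * (q : PowerSeries (MK K)) = P := by
  refine Algebra.adjoin_induction (fun x hx => ?_) (fun r => ?_) (fun x y _ _ hx hy => ?_)
    (fun x y _ _ hx hy => ?_) hg
  · rcases hx with hx | ⟨p, hp, rfl⟩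
    · refine ⟨1, Polynomial.X, 1, one_mem _, by simp, ?_⟩
      rw [Set.mem_singleton_iff.1 hx]
      simp
    · refine ⟨1 - Polynomial.C (((Lu K) ^ p.1 : (MK K)ˣ) : MK K) * Polynomial.X ^ p.2.toNat, 1,
        geo K p.1 p.2, Algebra.subset_adjoin (Or.inr ⟨p, hp, rfl⟩), ?_, ?_⟩
      · rw [← Pool.Agent.W63.MTFin.geo_mul p.1 p.2 (hS p hp)]
        simp
      · have h1 := Pool.Agent.W63.MTFin.geo_mul (K := K) p.1 p.2 (hS p hp)
        rw [mul_comm] at h1
        rw [Polynomial.coe_one, ← h1]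
        simp
  · refine ⟨1, Polynomial.C r, 1, one_mem _, by simp, ?_⟩
    rw [Polynomial.coe_one, mul_one, Polynomial.coe_C]
    rfl
  · obtain ⟨q1, P1, t1, h1, h2, h3⟩ := hx
    obtain ⟨q2, P2, t2, k1, k2, k3⟩ := hy
    refine ⟨q1 * q2, P1 * q2 + P2 * q1, t1 * t2, mul_mem h1 k1, ?_, ?_⟩
    · rw [Polynomial.coe_mul]
      linear_combination (q2 : PowerSeries (MK K)) * t2 * h2 + k2
    · rw [Polynomial.coe_mul, Polynomial.coe_add, Polynomial.coe_mul, Polynomial.coe_mul, ← h3,
        ← k3]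
      ring
  · obtain ⟨q1, P1, t1, h1, h2, h3⟩ := hx
    obtain ⟨q2, P2, t2, k1, k2, k3⟩ := hy
    refine ⟨q1 * q2, P1 * P2, t1 * t2, mul_mem h1 k1, ?_, ?_⟩
    · rw [Polynomial.coe_mul]
      linear_combination (q2 : PowerSeries (MK K)) * t2 * h2 + k2
    · rw [Polynomial.coe_mul, Polynomial.coe_mul, ← h3, ← k3]
      ring

/-- Division by a power of the variable. -/
theorem rat_div (S : Set (ℤ × ℤ)) (hS : ∀ p ∈ S, 0 < p.2) {g : PowerSeries (MK K)} (d : ℕ)
    (hg : PowerSeries.X ^ d * g ∈ ratRing K S) : g ∈ ratRing K S := by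
  obtain ⟨q, P, q', h1, h2, h3⟩ := rat_repr S hS hg
  -- the polynomial is divisible by the power
  have h4 : ∀ j < d, P.coeff j = 0 := by
    intro j hj
    rw [← Polynomial.coeff_coe, ← h3, mul_assoc, PowerSeries.coeff_X_pow_mul', if_neg (by omega)]
  obtain ⟨P', hP'⟩ : (Polynomial.X : Polynomial (MK K)) ^ d ∣ P :=
    Polynomial.X_pow_dvd_iff.2 h4
  have h5 : g * (q : PowerSeries (MK K)) = P' := by
    have h6 : PowerSeries.X ^ d * (g * (q : PowerSeries (MK K))) =
        PowerSeries.X ^ d * (P' : PowerSeries (MK K)) := by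
      rw [← mul_assoc, h3, hP', Polynomial.coe_mul, Polynomial.coe_pow, Polynomial.coe_X]
    ext j
    have h7 := congrArg (PowerSeries.coeff (j + d)) h6
    rwa [PowerSeries.coeff_X_pow_mul, PowerSeries.coeff_X_pow_mul] at h7
  have h6 : g = P' * q' := by
    rw [← h5, mul_assoc, h2, mul_one]
  rw [h6]
  exact mul_mem (Pool.Agent.W63.MTFin.poly_mem _ _) h1

/-- **Homogeneous polynomials**: the jets with arbitrary origins. -/
theorem global_of_local [CharZero K] {d : ℕ} (hd : 0 < d)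
    {f : MvPolynomial (Fin n) K} (hf : f.IsHomogeneous d) {E : Set (AlgebraicClosure K)}
    (hE : Good E) (h0 : Constr ({0} : Set (Pt K (Fin n)))) (S : Set (ℤ × ℤ))
    (hS : ∀ p ∈ S, 0 < p.2) (h : zetaG f {0} E ∈ ratRing K S) :
    zetaG f Set.univ E ∈ ratRing K S := by
  rw [zeta_hom hd hf hE h0] at h
  have h1 := rat_div S hS d h
  have h2 : zetaG f Set.univ E = PowerSeries.C (((Lu K) ^ (n : ℤ) : (MK K)ˣ) : MK K) *
      (PowerSeries.C (((Lu K) ^ (-(n : ℤ)) : (MK K)ˣ) : MK K) * zetaG f Set.univ E) := by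
    rw [← mul_assoc, ← map_mul, ← Units.val_mul, ← zpow_add, add_neg_cancel, zpow_zero,
      Units.val_one, map_one, one_mul]
  rw [h2]
  exact mul_mem (Pool.Agent.W63.MTFin.C_mem _ _) h1

end Pool.Agent.Y228.ND4
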