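import Pool.Agent.TH216.ND.Nd4
import Pool.Agent.Y231.N4.Defs2

/-!
# The certificates for the vertices are certificates for all the exponents
-/

set_option autoImplicit false

namespace Pool.Agent.Y228.ND4

open Pool.Agent.W425.MM
open Pool.Agent.W426.SM (gord face IsRay)
open Pool.Agent.W803.SM (gord_le)
open Pool.Agent.TH216.HD hiding IsRay
open Pool.Agent.TH216.HDNL
open Pool.Agent.TH216.ND
open Pool.Agent.Y231.N4

variable {r N : ℕ}

/-- a point on a face is a convex combination of vertices on the face, up to the coordinates with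
`a i = 0` -/
lemma face_comb (hr : 0 < r) (v : Fin r → Fin N → ℕ) (V : Finset (Fin r)) (hV : Spans v V)
    (a : Fin N → ℕ) (l : Fin r) (hl : face v a l) :
    ∃ lam : Fin V.card → ℝ, (∀ k, 0 ≤ lam k) ∧ ∑ k, lam k = 1 ∧
      (∀ i, ∑ k, lam k * (vV v V k i : ℝ) ≤ (v l i : ℝ)) ∧
      (∀ i, a i ≠ 0 → ∑ k, lam k * (vV v V k i : ℝ) = (v l i : ℝ)) ∧
      ∀ k, lam k ≠ 0 → face (vV v V) a k := by
  classical
  obtain ⟨L, h1, h2, h3, h4⟩ := hV l
  have hsum := fun f => sum_vV V L h2 f
  have e1 : ∑ k, L (iV V k) = 1 := by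
    have := hsum fun _ => 1
    simp only [mul_one] at this
    rw [this, h3]
  have e2 : ∀ i, ∑ k, L (iV V k) * (vV v V k i : ℝ) ≤ (v l i : ℝ) := by
    intro i
    have h5 := hsum fun k => (v k i : ℝ)
    have h6 : ∑ k, L (iV V k) * (vV v V k i : ℝ) = ∑ k, L k * (v k i : ℝ) := h5
    rw [h6]
    exact h4 i
  have hg := (gord_vV hr v V hV a).2
  have hlg : ∑ i, (a i : ℝ) * (v l i : ℝ) = gord v a := by
    have : ∑ i, a i * v l i = gord v a := hl
    exact_mod_cast this
  have hge : ∀ k, (gord v a : ℝ) ≤ ∑ i, (a i : ℝ) * (vV v V k i : ℝ) := by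
    intro k
    have := gord_le (vV v V) a k
    rw [hg] at this
    exact_mod_cast this
  -- the two inequalities
  have e3 : ∑ i, (a i : ℝ) * ∑ k, L (iV V k) * (vV v V k i : ℝ) =
      ∑ k, L (iV V k) * ∑ i, (a i : ℝ) * (vV v V k i : ℝ) := by
    simp only [Finset.mul_sum]
    rw [Finset.sum_comm]
    refine Finset.sum_congr rfl fun k _ => Finset.sum_congr rfl fun i _ => by ring
  have e4 : (gord v a : ℝ) ≤ ∑ k, L (iV V k) * ∑ i, (a i : ℝ) * (vV v V k i : ℝ) := by
    calc (gord v a : ℝ) = ∑ k, L (iV V k) * (gord v a : ℝ) := by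
          rw [← Finset.sum_mul, e1, one_mul]
      _ ≤ _ := Finset.sum_le_sum fun k _ => mul_le_mul_of_nonneg_left (hge k) (h1 _)
  have e5 : ∑ i, (a i : ℝ) * ∑ k, L (iV V k) * (vV v V k i : ℝ) ≤ gord v a := by
    rw [← hlg]
    exact Finset.sum_le_sum fun i _ => mul_le_mul_of_nonneg_left (e2 i) (Nat.cast_nonneg _)
  refine ⟨fun k => L (iV V k), fun k => h1 _, e1, e2, fun i hi => ?_, fun k hk => ?_⟩
  · have h7 : ∑ i, (a i : ℝ) * ((v l i : ℝ) - ∑ k, L (iV V k) * (vV v V k i : ℝ)) = 0 := by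
      have : ∑ i, (a i : ℝ) * ((v l i : ℝ) - ∑ k, L (iV V k) * (vV v V k i : ℝ)) =
          ∑ i, (a i : ℝ) * (v l i : ℝ) -
            ∑ i, (a i : ℝ) * ∑ k, L (iV V k) * (vV v V k i : ℝ) := by
        rw [← Finset.sum_sub_distrib]
        exact Finset.sum_congr rfl fun i _ => by ring
      rw [this, hlg]
      rw [← e3] at e4
      linarith
    have h8 := (Finset.sum_eq_zero_iff_of_nonneg fun i _ =>
      mul_nonneg (Nat.cast_nonneg (a i)) (sub_nonneg.2 (e2 i))).1 h7 i (Finset.mem_univ i)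
    have h9 : (a i : ℝ) ≠ 0 := by exact_mod_cast hi
    have h10 := (mul_eq_zero.1 h8).resolve_left h9
    linarith
  · have h7 : ∑ k, L (iV V k) * ((∑ i, (a i : ℝ) * (vV v V k i : ℝ)) - gord v a) = 0 := by
      have : ∑ k, L (iV V k) * ((∑ i, (a i : ℝ) * (vV v V k i : ℝ)) - gord v a) =
          ∑ k, L (iV V k) * (∑ i, (a i : ℝ) * (vV v V k i : ℝ)) -
            (∑ k, L (iV V k)) * gord v a := by
        rw [Finset.sum_mul, ← Finset.sum_sub_distrib]
        exact Finset.sum_congr rfl fun i _ => by ring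
      rw [this, e1, one_mul]
      rw [e3] at e5
      linarith
    have h8 := (Finset.sum_eq_zero_iff_of_nonneg fun k _ =>
      mul_nonneg (h1 (iV V k)) (sub_nonneg.2 (hge k))).1 h7 k (Finset.mem_univ k)
    have h10 := (mul_eq_zero.1 h8).resolve_left hk
    unfold face
    rw [hg]
    have h11 : (∑ i, (a i : ℝ) * (vV v V k i : ℝ)) = gord v a := by linarith
    exact_mod_cast h11

/-- A concave function on the vertices of a face. -/
lemma face_low (hr : 0 < r) (v : Fin r → Fin N → ℕ) (V : Finset (Fin r)) (hV : Spans v V)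
    (a : Fin N → ℕ) (u w : Fin N → ℚ)
    (κ : ℚ) (h : ∀ k, face (vV v V) a k →
      κ ≤ ∑ i, (if a i = 0 then w i else u i) * (vV v V k i : ℚ))
    (hw : ∀ i, a i = 0 → 0 ≤ w i)
    (l : Fin r) (hl : face v a l) :
    κ ≤ ∑ i, (if a i = 0 then w i else u i) * (v l i : ℚ) := by
  classical
  obtain ⟨lam, h1, h2, h3, h4, h5⟩ := face_comb hr v V hV a l hl
  have key : (κ : ℝ) ≤ ∑ i, ((if a i = 0 then w i else u i : ℚ) : ℝ) * (v l i : ℝ) := by
    calc (κ : ℝ) = ∑ k, lam k * (κ : ℝ) := by rw [← Finset.sum_mul, h2, one_mul]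
      _ ≤ ∑ k, lam k * ∑ i, ((if a i = 0 then w i else u i : ℚ) : ℝ) * (vV v V k i : ℝ) := by
        refine Finset.sum_le_sum fun k _ => ?_
        by_cases hk : lam k = 0
        · rw [hk, zero_mul, zero_mul]
        · refine mul_le_mul_of_nonneg_left ?_ (h1 k)
          have := h k (h5 k hk)
          exact_mod_cast this
      _ = ∑ i, ((if a i = 0 then w i else u i : ℚ) : ℝ) * ∑ k, lam k * (vV v V k i : ℝ) := by
        simp only [Finset.mul_sum]
        rw [Finset.sum_comm]
        refine Finset.sum_congr rfl fun i _ => Finset.sum_congr rfl fun k _ => by ring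
      _ ≤ _ := by
        refine Finset.sum_le_sum fun i _ => ?_
        by_cases hi : a i = 0
        · rw [if_pos hi]
          exact mul_le_mul_of_nonneg_left (h3 i) (by exact_mod_cast hw i hi)
        · rw [h4 i hi]
  exact_mod_cast key

/-- linearly independent vectors can be separated -/
lemma exists_dual {R' : ℕ} (v' : Fin R' → Fin N → ℕ) (a : Fin N → ℕ) (D : Finset (Fin R'))
    (hD : ∀ w : Fin R' → ℚ, (∀ j, j ∉ D → w j = 0) →
      (∀ i, a i ≠ 0 → ∑ j, w j * (v' j i : ℚ) = 0) → ∀ j, w j = 0) (y : Fin R' → ℚ) :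
    ∃ u : Fin N → ℚ, (∀ i, a i = 0 → u i = 0) ∧ ∀ j ∈ D, ∑ i, u i * (v' j i : ℚ) = y j := by
  classical
  -- the vectors
  set x : D → (Fin N → ℚ) := fun j i => if a i = 0 then 0 else (v' j i : ℚ) with hx
  have hli : LinearIndependent ℚ x := by
    rw [Fintype.linearIndependent_iff]
    intro g hg j
    set w : Fin R' → ℚ := fun j => if h : j ∈ D then g ⟨j, h⟩ else 0 with hw
    have h1 := hD w (fun j hj => by rw [hw]; simp [hj]) (fun i hi => by
      have h2 := congrFun hg i
      simp only [Finset.sum_apply, Pi.smul_apply, smul_eq_mul, hx, if_neg hi,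
        Pi.zero_apply] at h2
      rw [← h2, ← Finset.sum_subset (Finset.subset_univ D) fun j _ hj => by
        rw [hw]; simp [hj], ← Finset.sum_coe_sort D]
      refine Finset.sum_congr rfl fun j _ => ?_
      rw [hw]
      simp)
    have h3 := h1 j
    rw [hw] at h3
    simpa using h3
  obtain ⟨φ, hφ⟩ : ∃ φ : (Fin N → ℚ) →ₗ[ℚ] ℚ, ∀ j : D, φ (x j) = y j := by
    obtain ⟨g, hg⟩ := LinearMap.exists_extend
      ((Finsupp.linearCombination ℚ (fun j : D => y j)).comp hli.repr)
    refine ⟨g, fun j => ?_⟩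
    have h1 : x j ∈ Submodule.span ℚ (Set.range x) := Submodule.subset_span ⟨j, rfl⟩
    have h2 := LinearMap.congr_fun hg ⟨x j, h1⟩
    have h3 : hli.repr ⟨x j, h1⟩ = Finsupp.single j 1 := hli.repr_eq_single j _ rfl
    rw [LinearMap.comp_apply, Submodule.subtype_apply, LinearMap.comp_apply,
      h3, Finsupp.linearCombination_single, one_smul] at h2
    exact h2
  refine ⟨fun i => if a i = 0 then 0 else φ (Pi.single i 1), fun i hi => if_pos hi,
    fun j hj => ?_⟩
  rw [← hφ ⟨j, hj⟩]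
  have h1 : x ⟨j, hj⟩ = ∑ i, (if a i = 0 then 0 else (v' j i : ℚ)) • Pi.single i (1 : ℚ) := by
    funext i
    rw [Finset.sum_apply, Finset.sum_eq_single i]
    · simp [hx]
    · intro b _ hb
      simp [hb.symm]
    · intro h
      exact absurd (Finset.mem_univ i) h
  rw [h1, map_sum]
  refine Finset.sum_congr rfl fun i _ => ?_
  rw [map_smul, smul_eq_mul]
  dsimp only
  by_cases hi : a i = 0
  · rw [if_pos hi, if_pos hi, zero_mul, zero_mul]
  · rw [if_neg hi, if_neg hi, mul_comm]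

/-- spanning -/
lemma exists_sol {R' : ℕ} (v' : Fin R' → Fin N → ℕ) (a : Fin N → ℕ) (D : Finset (Fin R'))
    (hcard : D.card = (Finset.univ.filter fun i => a i ≠ 0).card)
    (hD : ∀ w : Fin R' → ℚ, (∀ j, j ∉ D → w j = 0) →
      (∀ i, a i ≠ 0 → ∑ j, w j * (v' j i : ℚ) = 0) → ∀ j, w j = 0) (y : Fin N → ℚ) :
    ∃ α : Fin R' → ℚ, (∀ j, j ∉ D → α j = 0) ∧
      ∀ i, a i ≠ 0 → ∑ j, α j * (v' j i : ℚ) = y i := by
  classical
  set x : D → ({i // a i ≠ 0} → ℚ) := fun j i => (v' j i : ℚ) with hx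
  have hli : LinearIndependent ℚ x := by
    rw [Fintype.linearIndependent_iff]
    intro g hg j
    set w : Fin R' → ℚ := fun j => if h : j ∈ D then g ⟨j, h⟩ else 0 with hw
    have h1 := hD w (fun j hj => by rw [hw]; simp [hj]) (fun i hi => by
      have h2 := congrFun hg ⟨i, hi⟩
      simp only [Finset.sum_apply, Pi.smul_apply, smul_eq_mul, hx, Pi.zero_apply] at h2
      rw [← h2, ← Finset.sum_subset (Finset.subset_univ D) fun j _ hj => by
        rw [hw]; simp [hj], ← Finset.sum_coe_sort D]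
      refine Finset.sum_congr rfl fun j _ => ?_
      rw [hw]
      simp)
    have h3 := h1 j
    rw [hw] at h3
    simpa using h3
  have hspan : Submodule.span ℚ (Set.range x) = ⊤ := by
    refine hli.span_eq_top_of_card_eq_finrank' ?_
    rw [Module.finrank_fintype_fun_eq_card, Fintype.card_coe, hcard, Fintype.card_subtype]
  have hy : (fun i : {i // a i ≠ 0} => y i) ∈ Submodule.span ℚ (Set.range x) := by
    rw [hspan]
    exact Submodule.mem_top
  obtain ⟨g, hg⟩ := (Submodule.mem_span_range_iff_exists_fun ℚ).1 hy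
  refine ⟨fun j => if h : j ∈ D then g ⟨j, h⟩ else 0, fun j hj => by simp [hj], fun i hi => ?_⟩
  have h2 := congrFun hg ⟨i, hi⟩
  simp only [Finset.sum_apply, Pi.smul_apply, smul_eq_mul, hx] at h2
  rw [← h2, ← Finset.sum_subset (Finset.subset_univ D) fun j _ hj => by simp [hj],
    ← Finset.sum_coe_sort D]
  refine Finset.sum_congr rfl fun j _ => ?_
  simp

end Pool.Agent.Y228.ND4
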