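import Pool.Agent.Y228.ND4.T1

/-!
# The certificates for the vertices are certificates for all the exponents
-/

set_option autoImplicit false

namespace Pool.Agent.Y228.ND4

open Pool.Agent.W425.MM
open Pool.Agent.W426.SM (gord face IsRay)
open Pool.Agent.W803.SM (gord_le)
open Pool.Agent.TH216.HD hiding IsRay
open Pool.Agent.TH216.HDNL
open Pool.Agent.TH216.ND
open Pool.Agent.Y231.N4

variable {r N : ℕ}

section
variable (V : Finset (Fin r))

/-- sums over the vertices -/
lemma sum_iV (F : Fin r → ℚ) (hF : ∀ j, (∀ x, iV V x ≠ j) → F j = 0) :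
    ∑ j, F j = ∑ x, F (iV V x) := by
  classical
  rw [← Finset.sum_image (s := Finset.univ) (g := iV V) (f := F)
    (fun i _ i' _ h => iV_inj V h)]
  symm
  refine Finset.sum_subset (Finset.subset_univ _) fun j _ hj => hF j fun x hx => ?_
  exact hj (Finset.mem_image.2 ⟨x, Finset.mem_univ _, hx⟩)

open Classical in
/-- extension by zero -/
noncomputable def ext (f : Fin V.card → ℚ) (j : Fin r) : ℚ :=
  if h : ∃ x, iV V x = j then f h.choose else 0

lemma ext_iV (f : Fin V.card → ℚ) (x : Fin V.card) : ext V f (iV V x) = f x := by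
  classical
  have h : ∃ x', iV V x' = iV V x := ⟨x, rfl⟩
  unfold ext
  rw [dif_pos h, iV_inj V h.choose_spec]

lemma ext_out (f : Fin V.card → ℚ) (j : Fin r) (h : ∀ x, iV V x ≠ j) : ext V f j = 0 := by
  classical
  unfold ext
  rw [dif_neg]
  rintro ⟨x, hx⟩
  exact h x hx

lemma sum_ext (f : Fin V.card → ℚ) (g : Fin r → ℚ) :
    ∑ j, ext V f j * g j = ∑ x, f x * g (iV V x) := by
  rw [sum_iV V _ fun j hj => by rw [ext_out V f j hj, zero_mul]]
  exact Finset.sum_congr rfl fun x _ => by rw [ext_iV]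

lemma negI_zero : ¬ NegI 0 := by
  rintro ⟨m, hm, h⟩
  have : (m : ℚ) = 0 := by linarith
  have h2 : m = 0 := by exact_mod_cast this
  omega

end

/-- the height of the vertices -/
lemma htA_vV (v : Fin r → Fin N → ℕ) (V : Finset (Fin r)) (a : Fin N → ℕ) (x : Fin V.card) :
    htA (vV v V) a x = htA v a (iV V x) := rfl

lemma htA_sum (v : Fin r → Fin N → ℕ) (a : Fin N → ℕ) (j : Fin r) :
    htA v a j = ∑ i, (if a i = 0 then (1 : ℚ) else 0) * (v j i : ℚ) := by
  unfold htA
  exact Finset.sum_congr rfl fun i _ => by split_ifs <;> simp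

/-- independence -/
lemma ind_iV (v : Fin r → Fin N → ℕ) (V : Finset (Fin r)) (a : Fin N → ℕ)
    (D : Finset (Fin V.card))
    (hD : ∀ w : Fin V.card → ℚ, (∀ j, j ∉ D → w j = 0) →
      (∀ i, a i ≠ 0 → ∑ j, w j * (vV v V j i : ℚ) = 0) → ∀ j, w j = 0)
    (w : Fin r → ℚ) (hw : ∀ j, j ∉ D.image (iV V) → w j = 0)
    (h : ∀ i, a i ≠ 0 → ∑ j, w j * (v j i : ℚ) = 0) : ∀ j, w j = 0 := by
  classical
  have hout : ∀ j, (∀ x, iV V x ≠ j) → w j = 0 := fun j hj => hw j fun h => by
    obtain ⟨x, -, hx⟩ := Finset.mem_image.1 h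
    exact hj x hx
  have h1 := hD (fun x => w (iV V x)) (fun x hx => hw _ fun h => by
    obtain ⟨x', hx', he⟩ := Finset.mem_image.1 h
    exact hx (iV_inj V he ▸ hx')) (fun i hi => by
    rw [← h i hi, sum_iV V _ fun j hj => by rw [hout j hj, zero_mul]]
    rfl)
  intro j
  by_cases hj : ∀ x, iV V x ≠ j
  · exact hout j hj
  · push Not at hj
    obtain ⟨x, rfl⟩ := hj
    exact h1 x

/-- the two functionals -/
lemma low_iV (hr : 0 < r) (v : Fin r → Fin N → ℕ) (V : Finset (Fin r)) (hV : Spans v V)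
    (a : Fin N → ℕ) (D : Finset (Fin V.card))
    (hcard : D.card = (Finset.univ.filter fun i => a i ≠ 0).card)
    (hD : ∀ w : Fin V.card → ℚ, (∀ j, j ∉ D → w j = 0) →
      (∀ i, a i ≠ 0 → ∑ j, w j * (vV v V j i : ℚ) = 0) → ∀ j, w j = 0)
    (hlow : ∀ l, face (vV v V) a l → ∀ α : Fin V.card → ℚ, (∀ j, j ∉ D → α j = 0) →
      (∀ i, a i ≠ 0 → ∑ j, α j * (vV v V j i : ℚ) = (vV v V l i : ℚ)) →
      ∑ j, α j * htA (vV v V) a j ≤ htA (vV v V) a l)
    (l : Fin r) (hl : face v a l) (α : Fin r → ℚ) (hα : ∀ j, j ∉ D.image (iV V) → α j = 0)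
    (h : ∀ i, a i ≠ 0 → ∑ j, α j * (v j i : ℚ) = (v l i : ℚ)) :
    ∑ j, α j * htA v a j ≤ htA v a l := by
  classical
  obtain ⟨u, hu0, hu⟩ := exists_dual (vV v V) a D hD (fun x => htA (vV v V) a x)
  have hL : ∀ (f : Fin V.card → ℚ), (∀ j, j ∉ D → f j = 0) →
      ∑ j, f j * htA (vV v V) a j = ∑ i, u i * ∑ j, f j * (vV v V j i : ℚ) := by
    intro f hf
    have e1 : ∀ j, f j * htA (vV v V) a j = f j * ∑ i, u i * (vV v V j i : ℚ) := by
      intro j
      by_cases hj : j ∈ D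
      · rw [hu j hj]
      · rw [hf j hj, zero_mul, zero_mul]
    rw [Finset.sum_congr rfl fun j _ => e1 j]
    simp only [Finset.mul_sum]
    rw [Finset.sum_comm]
    exact Finset.sum_congr rfl fun i _ => Finset.sum_congr rfl fun j _ => by ring
  have hout : ∀ j, (∀ x, iV V x ≠ j) → α j = 0 := fun j hj => hα j fun h => by
    obtain ⟨x, -, hx⟩ := Finset.mem_image.1 h
    exact hj x hx
  have hα' : ∀ x, x ∉ D → α (iV V x) = 0 := fun x hx => hα _ fun h => by
    obtain ⟨x', hx', he⟩ := Finset.mem_image.1 h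
    exact hx (iV_inj V he ▸ hx')
  have h2 : ∑ j, α j * htA v a j = ∑ i, u i * (v l i : ℚ) := by
    rw [sum_iV V _ fun j hj => by rw [hout j hj, zero_mul]]
    have h3 := hL (fun x => α (iV V x)) hα'
    have h4 : ∑ x, α (iV V x) * htA v a (iV V x) =
        ∑ x, α (iV V x) * htA (vV v V) a x := rfl
    rw [h4, h3]
    refine Finset.sum_congr rfl fun i _ => ?_
    by_cases hi : a i = 0
    · rw [hu0 i hi, zero_mul, zero_mul]
    · congr 1
      rw [← h i hi, sum_iV V _ fun j hj => by rw [hout j hj, zero_mul]]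
      rfl
  have h5 := face_low hr v V hV a (fun i => -u i) (fun _ => 1) 0 (fun k hk => by
    obtain ⟨β, hβ1, hβ2⟩ := exists_sol (vV v V) a D hcard hD (fun i => (vV v V k i : ℚ))
    have h6 := hlow k hk β hβ1 hβ2
    rw [hL β hβ1, htA_sum] at h6
    have h7 : ∑ i, (if a i = 0 then (1 : ℚ) else -u i) * (vV v V k i : ℚ) =
        ∑ i, (if a i = 0 then (1 : ℚ) else 0) * (vV v V k i : ℚ) -
          ∑ i, u i * ∑ j, β j * (vV v V j i : ℚ) := by
      rw [← Finset.sum_sub_distrib]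
      refine Finset.sum_congr rfl fun i _ => ?_
      by_cases hi : a i = 0
      · rw [if_pos hi, if_pos hi, hu0 i hi]
        ring
      · rw [if_neg hi, if_neg hi, hβ2 i hi]
        ring
    rw [h7]
    linarith) (fun i _ => zero_le_one) l hl
  have h8 : ∑ i, (if a i = 0 then (1 : ℚ) else -u i) * (v l i : ℚ) =
      htA v a l - ∑ i, u i * (v l i : ℚ) := by
    rw [htA_sum, ← Finset.sum_sub_distrib]
    refine Finset.sum_congr rfl fun i _ => ?_
    by_cases hi : a i = 0
    · rw [if_pos hi, if_pos hi, hu0 i hi]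
      ring
    · rw [if_neg hi, if_neg hi]
      ring
  rw [h8] at h5
  rw [h2]
  linarith

end Pool.Agent.Y228.ND4
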