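import Pool.Agent.Y228.ND4.T2

/-!
# The certificates for the vertices are certificates for all the exponents
-/

set_option autoImplicit false

namespace Pool.Agent.Y228.ND4

open Pool.Agent.W425.MM
open Pool.Agent.W426.SM (gord face IsRay)
open Pool.Agent.W803.SM (gord_le)
open Pool.Agent.TH216.HD hiding IsRay
open Pool.Agent.TH216.HDNL
open Pool.Agent.TH216.ND
open Pool.Agent.Y231.N4

variable {r N : ℕ}

lemma mem_im (V : Finset (Fin r)) (D : Finset (Fin V.card)) (x : Fin V.card) :
    iV V x ∈ D.image (iV V) ↔ x ∈ D := by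
  classical
  constructor
  · intro h
    obtain ⟨x', hx', he⟩ := Finset.mem_image.1 h
    exact iV_inj V he ▸ hx'
  · exact fun h => Finset.mem_image_of_mem _ h

theorem circ_iV (hr : 0 < r) (v : Fin r → Fin N → ℕ) (V : Finset (Fin r)) (hV : Spans v V)
    (a : Fin N → ℕ) (h : CircP (vV v V) a) : CircP v a := by
  classical
  obtain ⟨D, k, s, c, G, h1, h2, h3, h4, h5, h6, h7, h8, h9, h10, h11, h12, h13, h14, h15⟩ := h
  have hface : ∀ x, face (vV v V) a x ↔ face v a (iV V x) := face_vV hr v V hV a
  have hnD : ∀ j, j ∉ D.image (iV V) → ∀ f : Fin V.card → ℚ, (∀ x, x ∉ D → f x = 0) →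
      ext V f j = 0 := by
    intro j hj f hf
    by_cases hx : ∀ x, iV V x ≠ j
    · exact ext_out V f j hx
    · push Not at hx
      obtain ⟨x, rfl⟩ := hx
      rw [ext_iV]
      exact hf x fun h => hj ((mem_im V D x).2 h)
  have hGD : ∀ x ∈ G, x ≠ k → x ∈ D := by
    intro x hx hxk
    by_contra hxD
    have := h13 x hx
    rw [h9 x hxD hxk] at this
    exact lt_irrefl _ this
  -- the constant
  have hck : ∑ m, c m * htA (vV v V) a m =
      ∑ m, (if m = k then 0 else c m) * htA (vV v V) a m - htA (vV v V) a k := by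
    rw [← Finset.add_sum_erase _ _ (Finset.mem_univ k), ← Finset.add_sum_erase _ _
      (Finset.mem_univ k), if_pos rfl, h10]
    have e : ∑ x ∈ Finset.univ.erase k, (if x = k then 0 else c x) * htA (vV v V) a x =
        ∑ x ∈ Finset.univ.erase k, c x * htA (vV v V) a x :=
      Finset.sum_congr rfl fun x hx => by rw [if_neg (Finset.ne_of_mem_erase hx)]
    rw [e]
    ring
  have hK0 : 0 ≤ -∑ m, c m * htA (vV v V) a m := by
    have h16 := h6 k h4 (fun m => if m = k then 0 else c m) (fun j hj => by
      by_cases hjk : j = k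
      · rw [if_pos hjk]
      · rw [if_neg hjk]
        exact h9 j hj hjk) (fun i hi => by
        have h17 := h11 i hi
        rw [← Finset.add_sum_erase _ _ (Finset.mem_univ k), h10] at h17
        rw [← Finset.add_sum_erase _ _ (Finset.mem_univ k), if_pos rfl]
        have e : ∑ x ∈ Finset.univ.erase k, (if x = k then 0 else c x) * (vV v V x i : ℚ) =
            ∑ x ∈ Finset.univ.erase k, c x * (vV v V x i : ℚ) :=
          Finset.sum_congr rfl fun x hx => by rw [if_neg (Finset.ne_of_mem_erase hx)]
        rw [e]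
        linarith)
    rw [hck]
    linarith
  refine ⟨D.image (iV V), iV V k, ext V s, ext V c, G.image (iV V),
    fun h => h1 ((mem_im V D k).1 h), ?_, ?_, (hface k).1 h4, ind_iV v V a D h5, ?_,
    fun j hj => hnD j hj s h7, ?_, ?_, ?_, ?_, ?_, ?_, ?_, ?_⟩
  · rw [Finset.card_image_of_injective _ (iV_inj V), h2]
  · intro j hj
    obtain ⟨x, hx, rfl⟩ := Finset.mem_image.1 hj
    exact (hface x).1 (h3 x hx)
  · intro l hl α hα hs
    exact low_iV hr v V hV a D h2 h5 h6 l hl α hα hs
  · intro i hi
    rw [sum_ext]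
    exact h8 i hi
  · intro j hj hjk
    by_cases hx : ∀ x, iV V x ≠ j
    · exact ext_out V c j hx
    · push Not at hx
      obtain ⟨x, rfl⟩ := hx
      rw [ext_iV]
      exact h9 x (fun h => hj ((mem_im V D x).2 h)) fun h => hjk (by rw [h])
  · rw [ext_iV, h10]
  · intro i hi
    rw [sum_ext]
    exact h11 i hi
  · intro j hj
    by_cases hx : ∀ x, iV V x ≠ j
    · rw [ext_out V s j hx] at hj
      exact absurd hj negI_zero
    · push Not at hx
      obtain ⟨x, rfl⟩ := hx
      rw [ext_iV] at hj ⊢
      exact h12 x hj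
  · intro j hj
    obtain ⟨x, hx, rfl⟩ := Finset.mem_image.1 hj
    rw [ext_iV]
    exact h13 x hx
  · have e1 : (Finset.univ.filter fun j => NegI (ext V s j) ∧ j ∉ G.image (iV V)) =
        (Finset.univ.filter fun x => NegI (s x) ∧ x ∉ G).image (iV V) := by
      ext j
      simp only [Finset.mem_filter, Finset.mem_univ, true_and, Finset.mem_image]
      constructor
      · rintro ⟨hj, hjG⟩
        by_cases hx : ∀ x, iV V x ≠ j
        · rw [ext_out V s j hx] at hj
          exact absurd hj negI_zero
        · push Not at hx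
          obtain ⟨x, rfl⟩ := hx
          rw [ext_iV] at hj
          exact ⟨x, ⟨hj, fun h => hjG ⟨x, h, rfl⟩⟩, rfl⟩
      · rintro ⟨x, ⟨hx, hxG⟩, rfl⟩
        rw [ext_iV]
        refine ⟨hx, ?_⟩
        rintro ⟨x', hx', he⟩
        exact hxG (iV_inj V he ▸ hx')
    have e2 : ((G.image (iV V)).filter fun j => ext V s j = 0) =
        (G.filter fun x => s x = 0).image (iV V) := by
      ext j
      simp only [Finset.mem_filter, Finset.mem_image]
      constructor
      · rintro ⟨⟨x, hx, rfl⟩, h0⟩
        rw [ext_iV] at h0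
        exact ⟨x, ⟨hx, h0⟩, rfl⟩
      · rintro ⟨x, ⟨hx, h0⟩, rfl⟩
        rw [ext_iV]
        exact ⟨⟨x, hx, rfl⟩, h0⟩
    rw [e1, e2, Finset.card_image_of_injective _ (iV_inj V),
      Finset.card_image_of_injective _ (iV_inj V)]
    exact h14
  · intro l hl α hα hs j hj hjk hαj
    obtain ⟨x, hx, rfl⟩ := Finset.mem_image.1 hj
    have hxk : x ≠ k := fun h => hjk (by rw [h])
    have hxD := hGD x hx hxk
    have hcx := h13 x hx
    obtain ⟨u, hu0, hu⟩ := exists_dual (vV v V) a D h5 (fun x => htA (vV v V) a x)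
    obtain ⟨b, hb0, hb⟩ := exists_dual (vV v V) a D h5 (fun y => if y = x then 1 else 0)
    have hL : ∀ (f : Fin V.card → ℚ), (∀ j, j ∉ D → f j = 0) →
        ∑ j, f j * htA (vV v V) a j = ∑ i, u i * ∑ j, f j * (vV v V j i : ℚ) := by
      intro f hf
      have e1 : ∀ j, f j * htA (vV v V) a j = f j * ∑ i, u i * (vV v V j i : ℚ) := by
        intro j
        by_cases hj : j ∈ D
        · rw [hu j hj]
        · rw [hf j hj, zero_mul, zero_mul]
      rw [Finset.sum_congr rfl fun j _ => e1 j]
      simp only [Finset.mul_sum]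
      rw [Finset.sum_comm]
      exact Finset.sum_congr rfl fun i _ => Finset.sum_congr rfl fun j _ => by ring
    have hB : ∀ (f : Fin V.card → ℚ), (∀ j, j ∉ D → f j = 0) →
        f x = ∑ i, b i * ∑ j, f j * (vV v V j i : ℚ) := by
      intro f hf
      have e0 : f x = ∑ j, f j * (if j = x then 1 else 0) := by
        simp
      have e1 : ∀ j, f j * (if j = x then (1 : ℚ) else 0) =
          f j * ∑ i, b i * (vV v V j i : ℚ) := by
        intro j
        by_cases hj : j ∈ D
        · rw [hb j hj]
        · rw [hf j hj, zero_mul, zero_mul]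
      rw [e0, Finset.sum_congr rfl fun j _ => e1 j]
      simp only [Finset.mul_sum]
      rw [Finset.sum_comm]
      exact Finset.sum_congr rfl fun i _ => Finset.sum_congr rfl fun j _ => by ring
    have hout : ∀ j, (∀ x, iV V x ≠ j) → α j = 0 := fun j hj => hα j fun h => by
      obtain ⟨x, -, hx⟩ := Finset.mem_image.1 h
      exact hj x hx
    have hα' : ∀ x, x ∉ D → α (iV V x) = 0 := fun x hx => hα _ fun h =>
      hx ((mem_im V D x).1 h)
    have hred : ∀ i, a i ≠ 0 → ∑ x, α (iV V x) * (vV v V x i : ℚ) = (v l i : ℚ) := by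
      intro i hi
      rw [← hs i hi, sum_iV V _ fun j hj => by rw [hout j hj, zero_mul]]
      rfl
    have hcoll : ∀ (w : Fin N → ℚ), (∀ i, a i = 0 → w i = 0) →
        ∑ i, w i * ∑ x, α (iV V x) * (vV v V x i : ℚ) = ∑ i, w i * (v l i : ℚ) := by
      intro w hw
      refine Finset.sum_congr rfl fun i _ => ?_
      by_cases hi : a i = 0
      · rw [hw i hi, zero_mul, zero_mul]
      · rw [hred i hi]
    have e1 : ∑ m, α m * htA v a m = ∑ i, u i * (v l i : ℚ) := by
      rw [sum_iV V _ fun j hj => by rw [hout j hj, zero_mul]]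
      have h4 : ∑ x, α (iV V x) * htA v a (iV V x) =
          ∑ x, α (iV V x) * htA (vV v V) a x := rfl
      rw [h4, hL _ hα', hcoll u hu0]
    have e2 : α (iV V x) = ∑ i, b i * (v l i : ℚ) := by
      rw [hB (fun x => α (iV V x)) hα', hcoll b hb0]
    have e3 : ∑ m, ext V c m * htA v a m = ∑ m, c m * htA (vV v V) a m := by
      rw [sum_ext]
      rfl
    set K0 : ℚ := -∑ m, c m * htA (vV v V) a m with hK0def
    rw [e3, e1, e2, ext_iV]
    have key := face_low hr v V hV a (fun i => (-c x) * (-u i) + K0 * b i) (fun _ => -c x) 0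
      (fun k' hk' => by
        obtain ⟨β, hβ1, hβ2⟩ := exists_sol (vV v V) a D h2 h5 (fun i => (vV v V k' i : ℚ))
        have h16 := h6 k' hk' β hβ1 hβ2
        have hcollβ : ∀ (w : Fin N → ℚ), (∀ i, a i = 0 → w i = 0) →
            ∑ i, w i * ∑ x, β x * (vV v V x i : ℚ) = ∑ i, w i * (vV v V k' i : ℚ) := by
          intro w hw
          refine Finset.sum_congr rfl fun i _ => ?_
          by_cases hi : a i = 0
          · rw [hw i hi, zero_mul, zero_mul]
          · rw [hβ2 i hi]
        have f1 : ∑ j, β j * htA (vV v V) a j = ∑ i, u i * (vV v V k' i : ℚ) := by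
          rw [hL β hβ1, hcollβ u hu0]
        have f2 : β x = ∑ i, b i * (vV v V k' i : ℚ) := by
          rw [hB β hβ1, hcollβ b hb0]
        have f3 : ∑ i, (if a i = 0 then -c x else (-c x) * (-u i) + K0 * b i) *
            (vV v V k' i : ℚ) = (-c x) * (htA (vV v V) a k' - ∑ j, β j * htA (vV v V) a j) +
              K0 * β x := by
          rw [f1, f2, htA_sum, ← Finset.sum_sub_distrib, Finset.mul_sum, Finset.mul_sum,
            ← Finset.sum_add_distrib]
          refine Finset.sum_congr rfl fun i _ => ?_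
          by_cases hi : a i = 0
          · rw [if_pos hi, if_pos hi, hu0 i hi, hb0 i hi]
            ring
          · rw [if_neg hi, if_neg hi]
            ring
        rw [f3]
        by_cases hβx : β x < 0
        · have h17 := h15 k' hk' β hβ1 hβ2 x hx hxk hβx
          linarith
        · have h18 : 0 ≤ K0 * β x := mul_nonneg hK0 (not_lt.1 hβx)
          have h19 : 0 ≤ (-c x) * (htA (vV v V) a k' - ∑ j, β j * htA (vV v V) a j) :=
            mul_nonneg (by linarith) (by linarith)
          linarith) (fun i _ => by linarith) l hl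
    have f4 : ∑ i, (if a i = 0 then -c x else (-c x) * (-u i) + K0 * b i) *
        (v l i : ℚ) = (-c x) * (htA v a l - ∑ i, u i * (v l i : ℚ)) +
          K0 * ∑ i, b i * (v l i : ℚ) := by
      rw [htA_sum, ← Finset.sum_sub_distrib, Finset.mul_sum, Finset.mul_sum,
        ← Finset.sum_add_distrib]
      refine Finset.sum_congr rfl fun i _ => ?_
      by_cases hi : a i = 0
      · rw [if_pos hi, if_pos hi, hu0 i hi, hb0 i hi]
        ring
      · rw [if_neg hi, if_neg hi]
        ring
    rw [f4] at key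
    linarith

theorem pnt_iV (hr : 0 < r) (v : Fin r → Fin N → ℕ) (V : Finset (Fin r)) (hV : Spans v V)
    (a : Fin N → ℕ) (h : PntP (vV v V) a) : PntP v a := by
  classical
  obtain ⟨E, s, w, κ, h1, h2, h3, h4, h5, h6, h7, h8⟩ := h
  have hface : ∀ x, face (vV v V) a x ↔ face v a (iV V x) := face_vV hr v V hV a
  refine ⟨E.image (iV V), ext V s, w, κ, ?_, h2, ?_, ?_, ?_, ?_, ?_, ?_⟩
  · intro j hj
    obtain ⟨x, hx, rfl⟩ := Finset.mem_image.1 hj
    exact (hface x).1 (h1 x hx)
  · intro j hj
    obtain ⟨x, hx, rfl⟩ := Finset.mem_image.1 hj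
    exact h3 x hx
  · intro l hl
    have h9 := face_low hr v V hV a w w κ (fun k hk => by
      simp only [ite_self]
      exact h4 k hk) (fun i hi => (h2 i hi).le) l hl
    simp only [ite_self] at h9
    exact h9
  · intro c hc hs j
    have hout : ∀ j, (∀ x, iV V x ≠ j) → c j = 0 := fun j hj => hc j fun h => by
      obtain ⟨x, -, hx⟩ := Finset.mem_image.1 h
      exact hj x hx
    have h9 := h5 (fun x => c (iV V x)) (fun x hx => hc _ fun h => hx ((mem_im V E x).1 h))
      (fun i => by
        rw [← hs i, sum_iV V _ fun j hj => by rw [hout j hj, zero_mul]]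
        rfl)
    by_cases hj : ∀ x, iV V x ≠ j
    · exact hout j hj
    · push Not at hj
      obtain ⟨x, rfl⟩ := hj
      exact h9 x
  · intro j hj
    by_cases hx : ∀ x, iV V x ≠ j
    · exact ext_out V s j hx
    · push Not at hx
      obtain ⟨x, rfl⟩ := hx
      rw [ext_iV]
      exact h6 x fun h => hj ((mem_im V E x).2 h)
  · intro i hi
    rw [sum_ext]
    exact h7 i hi
  · intro j
    by_cases hx : ∀ x, iV V x ≠ j
    · rw [ext_out V s j hx]
      exact negI_zero
    · push Not at hx
      obtain ⟨x, rfl⟩ := hx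
      rw [ext_iV]
      exact h8 x

theorem nonB_iV (hr : 0 < r) (v : Fin r → Fin N → ℕ) (V : Finset (Fin r)) (hV : Spans v V)
    (a : Fin N → ℕ) (h : NonB (vV v V) True a) : NonB v True a := by
  classical
  obtain ⟨J, h1, h2, h3, h4, h5⟩ := h
  have hface : ∀ x, face (vV v V) a x ↔ face v a (iV V x) := face_vV hr v V hV a
  have hD : ∀ w : Fin V.card → ℚ, (∀ j, j ∉ J → w j = 0) →
      (∀ i, a i ≠ 0 → ∑ j, w j * (vV v V j i : ℚ) = 0) → ∀ j, w j = 0 := by
    intro w hw hs j
    by_cases hj : j ∈ J
    · have h6 := Fintype.linearIndependent_iff.1 h3 (fun j => w j) (by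
        funext i
        simp only [Finset.sum_apply, Pi.smul_apply, smul_eq_mul, Pi.zero_apply]
        rw [← hs i.1 i.2, ← Finset.sum_subset (Finset.subset_univ J) fun j _ hj => by
          rw [hw j hj, zero_mul], ← Finset.sum_coe_sort J]) ⟨j, hj⟩
      exact h6
    · exact hw j hj
  refine ⟨J.image (iV V), ?_, ?_, ?_, ?_, fun _ l hl c hc hs => ?_⟩
  · rw [Finset.card_image_of_injective _ (iV_inj V), h1]
  · intro j hj
    obtain ⟨x, hx, rfl⟩ := Finset.mem_image.1 hj
    exact (hface x).1 (h2 x hx)
  · rw [Fintype.linearIndependent_iff]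
    intro g hg j
    have h6 := ind_iV v V a J hD (fun j => if h : j ∈ J.image (iV V) then g ⟨j, h⟩ else 0)
      (fun j hj => by simp only [dif_neg hj]) (fun i hi => by
        have h7 := congrFun hg ⟨i, hi⟩
        simp only [Finset.sum_apply, Pi.smul_apply, smul_eq_mul, Pi.zero_apply] at h7
        refine Eq.trans ?_ h7
        rw [← Finset.sum_subset (Finset.subset_univ (J.image (iV V))) fun j _ hj => by
          simp only [dif_neg hj, zero_mul], ← Finset.sum_coe_sort (J.image (iV V))]
        refine Finset.sum_congr rfl fun j _ => ?_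
        rw [dif_pos j.2]) j
    rw [dif_pos j.2] at h6
    exact h6
  · intro i hi
    rintro ⟨j0, hj0, h6, h7⟩
    obtain ⟨x0, hx0, rfl⟩ := Finset.mem_image.1 hj0
    refine h4 i hi ⟨x0, hx0, h6, fun x hx hne => ?_⟩
    exact h7 _ (Finset.mem_image_of_mem _ hx) fun h => hne (iV_inj V h)
  · have h6 := low_iV hr v V hV a J h1 hD (fun l hl α hα hs => by
      have := h5 trivial l hl α hα hs
      exact this) l hl c hc hs
    exact h6

end Pool.Agent.Y228.ND4
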